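import Pool.Agent.SCG.BettiEq

/-!
MP_577489_gt.  The square summable Betti numbers of Coxeter groups are subadditive under connected sums of
the nerves, in every degree.
-/

namespace Pool.Agent.Results.MP_577489_gt.ConnectedSums

open Finset SCG

/-- Let `(W, A ∪ B)` be a Coxeter system (Coxeter matrix `M`, `0` stands for `∞`) with label `∞` between
`A \ B` and `B \ A`, and let `c` be a further generator with label `2` to the elements of `A ∩ B` and
label `∞` to the other elements of `A ∪ B`.  Then for every `j` the `j`-th square summable Betti number of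
the special subgroup generated by `A ∪ B` is at most the sum of the ones of the special subgroups
generated by `A ∪ {c}` and by `B ∪ {c}`. -/
theorem result {V : Type} [LinearOrder V] (M : CoxeterMatrix V) {A B : Finset V} {c : V}
    (hcA : c ∉ A) (hcB : c ∉ B) (hc2 : ∀ x ∈ A ∩ B, M c x = 2)
    (hc0 : ∀ x ∈ A ∪ B, x ∉ A ∩ B → M c x = 0) (hn : ∀ x ∈ A \ B, ∀ y ∈ B \ A, M x y = 0) (j : ℕ) :
    b2 (rs M (A ∪ B)) j ≤ b2 (rs M (insert c A)) j + b2 (rs M (insert c B)) j :=
  csum_b2' M hcA hcB hc2 hc0 hn j

end Pool.Agent.Results.MP_577489_gt.ConnectedSums
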