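import Pool.Agent.LBU.Flg

/-!
MP_577489_gt.  Reduction of Singer's conjecture from arbitrary Coxeter groups with flag nerve to
right-angled Coxeter groups, in all dimensions.
-/

namespace Pool.Agent.Results.MP_577489_gt.FlagReduction

open SCG LBL

/-- Let `M` be a Coxeter matrix whose nerve `L` is a flag complex: every set of generators whose labels
are all finite (not `0`) generates a finite group.  For a simplex `K` of `L`, or `K` empty, the group of
`sub (ra M) (Nb M K)` is the right-angled Coxeter group whose nerve is the link of `K` in `L` (`L` itself
for `K` empty).  Let `n` be any integer.  Suppose that for every `K` with an even number of vertices the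
reduced square summable homology of the Davis complex of this right-angled Coxeter group vanishes in all
degrees `j` with `2 j > n - |K|`.  Then the reduced square summable homology of the Davis complex of `M`
vanishes in all degrees `j` with `2 j > n`, and, if `L` is a homology sphere over `F₂` of dimension
`n - 1` (links included), in all degrees `j` with `2 j ≠ n`.

(If `L` triangulates a sphere of dimension `n - 1`, the links of these `K` triangulate spheres of
dimension `n - |K| - 1`: the hypothesis follows from Singer's conjecture for right-angled Coxeter groups
in the dimensions `n - |K|`, which have the parity of `n`.) -/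
theorem result {V : Type} [Fintype V] [LinearOrder V] (M : CoxeterMatrix V) (n : ℤ)
    (hM : ∀ K : Finset V, (∀ x ∈ K, ∀ y ∈ K, M x y ≠ 0) → SCG.Sph M K)
    (h : ∀ K : Finset V, (∀ x ∈ K, ∀ y ∈ K, M x y ≠ 0) → Even K.card →
      ∀ j : ℕ, n < 2 * j + K.card → NoHomD (sub (ra M) (Nb M K)) j) (j : ℕ)
    (hj : n < 2 * j ∨ (n ≠ 2 * j ∧ ∃ m : ℕ, n = m ∧ SNG.HGor m Finset.univ (fg M))) :
    NoHomD M j := by
  rcases hj with hj | ⟨hj, m, rfl, hG⟩
  · exact red_upper M n hM h j hj
  · exact flag_all hM hG (fun K hK hev i hi => h K hK hev i (by exact_mod_cast hi)) j (by omega)

end Pool.Agent.Results.MP_577489_gt.FlagReduction
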