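import Pool.Agent.LBL.Pair

/-!
MP_577489_gt.  Singer's conjecture for all Coxeter groups whose nerve is the barycentric subdivision of
the boundary of a convex polytope of odd dimension.
-/

namespace Pool.Agent.Results.MP_577489_gt.PolytopeSubdivisions

open SCG LBL

/-- Let `P` be the convex hull of a finite set `S` of points of a Euclidean space, of odd dimension `n`
(the dimension of a set is the dimension of its `vectorSpan`).  Let `M` be a Coxeter matrix whose
generators are the nonempty proper faces of `P` (by the bijection `φ`), such that a set `K` of generators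
generates a finite group if and only if its faces form a chain: the nerve of `M` is the barycentric
subdivision of the boundary of `P`, a triangulation of the sphere of dimension `n - 1`.  Then the reduced
square summable homology of the Davis complex vanishes in all degrees. -/
theorem result {d : ℕ} (S : Finset (EuclideanSpace ℝ (Fin d)))
    (hS : Odd (Module.finrank ℝ (vectorSpan ℝ (S : Set (EuclideanSpace ℝ (Fin d))))))
    {V : Type} [Fintype V] [LinearOrder V] (M : CoxeterMatrix V)
    (φ : V → Set (EuclideanSpace ℝ (Fin d))) (hi : Function.Injective φ)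
    (hr : ∀ s, (∃ v, φ v = s) ↔
      IsExposed ℝ (convexHull ℝ (S : Set (EuclideanSpace ℝ (Fin d)))) s ∧ s.Nonempty ∧
        s ≠ convexHull ℝ (S : Set (EuclideanSpace ℝ (Fin d))))
    (hN : ∀ K : Finset V, Sph M K ↔ ∀ x ∈ K, ∀ y ∈ K, x ≠ y → φ x ⊂ φ y ∨ φ y ⊂ φ x) :
    NoHom M :=
  poly_all S hS M φ hi hr hN

end Pool.Agent.Results.MP_577489_gt.PolytopeSubdivisions
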