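import Pool.Agent.LBU.Flg

/-!
MP_577489_gt.  Singer's conjecture (vanishing of the reduced square summable homology of the Davis
complex off the middle degree) for Coxeter groups with arbitrary labels whose nerve is a flag homology
sphere with all links of simplices with an even number of vertices in the class `Rz`, in all dimensions.
The class contains all iterated edge subdivisions of boundaries of cross polytopes (`Trunc`).
-/

namespace Pool.Agent.Results.MP_577489_gt.ReducibleSpheres

open SCG LBL

/-- Let `M` be a Coxeter matrix whose nerve `L` is a flag complex: every set of generators whose labels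
are all finite (not `0`) generates a finite group; so `L` is the flag complex of the graph `fg M` of the
finite labels.  Suppose that `L` satisfies one of the following conditions.
* `L` is obtained from the empty complex by `n` suspensions and any number of edge subdivisions;
* `L` is a homology sphere over `F₂` of dimension `n - 1` (links included), and the link of every simplex
  `T` with an even number of vertices (`L` itself for `T` empty) belongs to the class `Rz (n - |T|)`
  (for `n ≤ 4` this holds for all flag homology spheres over `F₂` of dimension `n - 1`);
* all labels are at most `2` (`M` is right-angled) and `L` belongs to the class `Rz n`.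
Then the reduced square summable homology of the Davis complex of `M` vanishes in all degrees `j` with
`2 j ≠ n`. -/
theorem result {V : Type} [Fintype V] [LinearOrder V] (M : CoxeterMatrix V) (n : ℕ)
    (hM : ∀ K : Finset V, (∀ x ∈ K, ∀ y ∈ K, M x y ≠ 0) → SCG.Sph M K)
    (hL : SNG.Trunc n Finset.univ (fg M) ∨
      (SNG.HGor n Finset.univ (fg M) ∧ ∀ T : Finset V, (fg M).IsClique (T : Set V) → Even T.card →
        ∃ m, m + T.card = n ∧ SNG.Rz m (SNG.lks Finset.univ (fg M) T) (fg M)) ∨
      ((∀ x y, M x y ≤ 2) ∧ SNG.Rz n Finset.univ (fg M)))
    (j : ℕ) (hj : 2 * j ≠ n) : NoHomD M j := by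
  rcases hL with h | ⟨h1, h2⟩ | ⟨h1, h2⟩
  · exact trunc_all hM h j hj
  · exact flag_rz hM h1 h2 j hj
  · have e : M = SNG.raM (fg M) := by
      refine cm_ext fun x y => ?_
      by_cases hxy : x = y
      · rw [hxy, M.diagonal, (SNG.raM _).diagonal]
      · by_cases h0 : M x y = 0
        · rw [h0]
          by_contra h3
          exact (raM_ne hxy (Ne.symm h3)).2 h0
        · have h6 : SNG.raM (fg M) x y = 2 := raM_two (show (fg M).Adj x y from ⟨hxy, h0⟩)
          have h4 := h1 x y
          have h5 : M x y ≠ 1 := M.off_diagonal x y hxy
          omega
    rw [nohomd_iff, e]
    exact hh_of_zp ((SNG.rz_z h2).1 j (by exact_mod_cast hj))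

end Pool.Agent.Results.MP_577489_gt.ReducibleSpheres
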